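import Mathlib

set_option autoImplicit false

namespace Pool.Agent.KS6_69.FB.A

open Filter

/-- The set `S` of words is a basis of the laws of `G`: all words of `S` are laws of `G`, and every law
of `G` is a product of values in the free group of words of `S` and their inverses. -/
def IsBasis (S : Set (FreeGroup ℕ)) (G : Type) [Group G] : Prop :=
  (∀ s ∈ S, ∀ φ : FreeGroup ℕ →* G, φ s = 1) ∧
    ∀ w : FreeGroup ℕ, (∀ φ : FreeGroup ℕ →* G, φ w = 1) →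
      w ∈ Subgroup.closure {v : FreeGroup ℕ | ∃ s ∈ S, ∃ ψ : FreeGroup ℕ →* FreeGroup ℕ, ψ s = v}

theorem final (G : ℕ → Type) [∀ n, Group (G n)] (Q : Type) [Group Q] [Finite Q]
    (π : ∀ n, G n →* Q) (hπ : ∀ n, Function.Surjective (π n)) (e : ℕ)
    (he : ∀ n g, π n g = 1 → g ^ e = 1) (v : ℕ → FreeGroup ℕ)
    (h1 : ∀ m (R : Type) [Group R], (∀ r : R, r ^ e = 1) → ∀ φ : FreeGroup ℕ →* R, φ (v m) = 1)
    (h2 : ∀ m n, m < n → ∀ φ : FreeGroup ℕ →* G n, φ (v m) = 1)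
    (h3 : ∀ n, ∃ φ : FreeGroup ℕ →* G n, φ (v n) ≠ 1) :
    ∃ (Γ : Type) (_ : Group Γ) (H : Subgroup Γ), H.Normal ∧ Nonempty (Γ ⧸ H ≃ Q) ∧
      (∃ f : Γ →* Q, Function.Surjective f ∧ f.ker = H) ∧
      IsBasis {FreeGroup.of 0 ^ e} H ∧ (∀ m, ∀ φ : FreeGroup ℕ →* Γ, φ (v m) = 1) ∧
      ∀ S : Set (FreeGroup ℕ), S.Finite → (∀ s ∈ S, ∀ φ : FreeGroup ℕ →* Γ, φ s = 1) →
        ∃ n, v n ∉ Subgroup.closure
          {v : FreeGroup ℕ | ∃ s ∈ S, ∃ ψ : FreeGroup ℕ →* FreeGroup ℕ, ψ s = v} := by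
  classical
  let U := hyperfilter ℕ
  let K : Subgroup (∀ n, G n) :=
    { carrier := {g | ∀ᶠ n in U, g n = 1}
      mul_mem' := fun {a b} ha hb => (ha.and hb).mono fun n h => by simp [h.1, h.2]
      one_mem' := Eventually.of_forall fun n => rfl
      inv_mem' := fun {a} ha => ha.mono fun n h => by simp [h] }
  have : K.Normal := ⟨fun a ha g => ha.mono fun n h => by simp [h]⟩
  have hq : ∀ g : ∀ n, G n, ∃ q : Q, ∀ᶠ n in U, π n (g n) = q := fun g => by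
    obtain ⟨q, hq⟩ := (U.map fun n => π n (g n)).eq_pure_of_finite
    refine ⟨q, ?_⟩
    have : {q} ∈ U.map fun n => π n (g n) := by rw [hq]; simp
    exact this
  choose q hq using hq
  let ρ : (∀ n, G n) →* Q := MonoidHom.mk' q fun a b => by
    obtain ⟨n, h1, h2, h3⟩ := ((hq (a * b)).and ((hq a).and (hq b))).exists
    rw [← h1, ← h2, ← h3, Pi.mul_apply, map_mul]
  let ρ' : ((∀ n, G n) ⧸ K) →* Q := QuotientGroup.lift K ρ fun a ha => by
    obtain ⟨n, h1, h2⟩ := ((hq a).and ha).exists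
    change q a = 1
    rw [← h1, h2, map_one]
  let D : Subgroup (FreeGroup ℕ) := Subgroup.closure {v : FreeGroup ℕ |
    ∃ s ∈ ({FreeGroup.of 0 ^ e} : Set (FreeGroup ℕ)), ∃ ψ : FreeGroup ℕ →* FreeGroup ℕ, ψ s = v}
  have : D.Normal := ⟨fun a ha g => by
    have : D ≤ D.comap (MulAut.conj g).toMonoidHom := by
      refine (Subgroup.closure_le _).2 ?_
      rintro _ ⟨s, hs, ψ, rfl⟩
      exact Subgroup.subset_closure ⟨s, hs, (MulAut.conj g).toMonoidHom.comp ψ, rfl⟩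
    exact this ha⟩
  have hR : ∀ r : FreeGroup ℕ ⧸ D, r ^ e = 1 := fun r => by
    obtain ⟨f, rfl⟩ := QuotientGroup.mk_surjective r
    rw [← QuotientGroup.mk_pow, QuotientGroup.eq_one_iff]
    exact Subgroup.subset_closure ⟨_, rfl, FreeGroup.lift fun _ => f,
      by simp⟩
  let σ := ρ'.comp (MonoidHom.fst ((∀ n, G n) ⧸ K) (FreeGroup ℕ ⧸ D))
  have hσ : Function.Surjective σ := by
    intro x
    choose g hg using fun n => hπ n x
    refine ⟨(QuotientGroup.mk g, 1), ?_⟩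
    change q g = x
    obtain ⟨n, hn⟩ := (hq g).exists
    rw [← hn, hg]
  have hlaw : ∀ n, ∀ ψ : FreeGroup ℕ →* ((∀ n, G n) ⧸ K) × (FreeGroup ℕ ⧸ D), ψ (v n) = 1 := by
    intro n ψ
    refine Prod.ext ?_ ?_
    · let χ : FreeGroup ℕ →* ∀ n, G n := FreeGroup.lift fun i => (ψ (FreeGroup.of i)).1.out
      have : (MonoidHom.fst _ _).comp ψ = (QuotientGroup.mk' K).comp χ := by
        ext i; simp [χ]
      have e1 : (ψ (v n)).1 = QuotientGroup.mk (χ (v n)) := DFunLike.congr_fun this (v n)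
      rw [e1, Prod.fst_one, QuotientGroup.eq_one_iff]
      refine Nat.hyperfilter_le_atTop ((eventually_gt_atTop n).mono fun k hk => ?_)
      exact h2 n k hk ((Pi.evalMonoidHom G k).comp χ)
    · exact h1 n _ hR ((MonoidHom.snd _ _).comp ψ)
  refine ⟨((∀ n, G n) ⧸ K) × (FreeGroup ℕ ⧸ D), inferInstance, σ.ker, inferInstance,
    ⟨(QuotientGroup.quotientKerEquivOfSurjective σ hσ).toEquiv⟩, ⟨σ, hσ, rfl⟩,
    ⟨?_, fun w hw => ?_⟩, hlaw, ?_⟩
  · intro s hs φ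
    rw [Set.mem_singleton_iff.1 hs, map_pow]
    obtain ⟨⟨a, r⟩, ha⟩ := φ (FreeGroup.of 0)
    obtain ⟨g, rfl⟩ := QuotientGroup.mk_surjective a
    have hg : q g = 1 := ha
    refine Subtype.ext (Prod.ext ?_ (hR r))
    change (QuotientGroup.mk g : _ ⧸ K) ^ e = 1
    rw [← QuotientGroup.mk_pow, QuotientGroup.eq_one_iff]
    exact (hq g).mono fun n h => he n _ (h.trans hg)
  · have := hw (((MonoidHom.inr _ _).comp (QuotientGroup.mk' D)).codRestrict σ.ker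
      fun x => map_one ρ')
    exact (QuotientGroup.eq_one_iff w).1 (congrArg (fun x => x.1.2) this)
  · intro S hSf hS
    have a : ∀ s ∈ S, ∀ᶠ n in U, ∀ φ : FreeGroup ℕ →* G n, φ s = 1 := by
      intro s hs
      by_contra hn
      have hn' := Ultrafilter.eventually_not.2 hn
      have : ∀ n, ∃ φ : FreeGroup ℕ →* G n, (¬ ∀ φ : FreeGroup ℕ →* G n, φ s = 1) → φ s ≠ 1 := by
        intro n
        by_cases h : ∀ φ : FreeGroup ℕ →* G n, φ s = 1
        · exact ⟨1, fun h' => absurd h h'⟩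
        · obtain ⟨φ, hφ⟩ := not_forall.1 h
          exact ⟨φ, fun _ => hφ⟩
      choose φ hφ using this
      have := hS s hs ((MonoidHom.inl _ _).comp ((QuotientGroup.mk' K).comp (MonoidHom.pi φ)))
      have h' : ∀ᶠ n in U, φ n s = 1 := (QuotientGroup.eq_one_iff _).1 (congrArg Prod.fst this)
      obtain ⟨n, b1, b2⟩ := (hn'.and h').exists
      exact hφ n b1 b2
    obtain ⟨n, hn⟩ := ((Filter.eventually_all_finite hSf).2 a).exists
    obtain ⟨φ, hφ⟩ := h3 n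
    refine ⟨n, fun hmem => hφ ((Subgroup.closure_le φ.ker).2 ?_ hmem)⟩
    rintro _ ⟨s, hs, ψ, rfl⟩
    exact hn s hs (φ.comp ψ)

@[ext] structure Hs {V W : Type} [AddCommGroup V] [AddCommGroup W] (γ : V →+ V →+ W) where
  x : V
  s : W

namespace Hs
variable {V W : Type} [AddCommGroup V] [AddCommGroup W] {γ : V →+ V →+ W}
instance : Mul (Hs γ) := ⟨fun a b => ⟨a.x + b.x, a.s + b.s + γ a.x b.x⟩⟩
instance : One (Hs γ) := ⟨⟨0, 0⟩⟩
instance : Inv (Hs γ) := ⟨fun a => ⟨-a.x, γ a.x a.x - a.s⟩⟩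
@[simp] theorem mul_x (a b : Hs γ) : (a * b).x = a.x + b.x := rfl
@[simp] theorem mul_s (a b : Hs γ) : (a * b).s = a.s + b.s + γ a.x b.x := rfl
@[simp] theorem one_x : (1 : Hs γ).x = 0 := rfl
@[simp] theorem one_s : (1 : Hs γ).s = 0 := rfl
@[simp] theorem inv_x (a : Hs γ) : a⁻¹.x = -a.x := rfl
@[simp] theorem inv_s (a : Hs γ) : a⁻¹.s = γ a.x a.x - a.s := rfl
instance : Group (Hs γ) := Group.ofLeftAxioms
  (fun a b c => by ext <;> simp <;> abel) (fun a => by ext <;> simp) (fun a => by ext <;> simp)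

theorem sq (hV : ∀ x : V, x + x = 0) (hW : ∀ x : W, x + x = 0) (a : Hs γ) :
    a ^ 2 = ⟨0, γ a.x a.x⟩ := by
  rw [pow_two]; ext <;> simp [hV, hW]

theorem four (hV : ∀ x : V, x + x = 0) (hW : ∀ x : W, x + x = 0) (a : Hs γ) : a ^ 4 = 1 := by
  rw [show 4 = 2 * 2 from rfl, pow_mul, sq hV hW, sq hV hW]; ext <;> simp

theorem comm_iff (a b : Hs γ) : a * b = b * a ↔ γ a.x b.x = γ b.x a.x := by
  rw [Hs.ext_iff]
  simp [add_comm a.x, add_comm a.s]
end Hs

end Pool.Agent.KS6_69.FB.A
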