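import Pool.Agent.KS6_69.FB.A

set_option autoImplicit false

namespace Pool.Agent.KS6_69.FB.B

open Filter SemidirectProduct Pool.Agent.KS6_69.FB.A

def pw {G : Type} [Group G] (a : ℕ → G) : ℕ → G
  | 0 => 1
  | m + 1 => pw a m * a m ^ 2

theorem map_pw {G H : Type} [Group G] [Group H] (f : G →* H) (a : ℕ → G) (m : ℕ) :
    f (pw a m) = pw (fun i => f (a i)) m := by
  induction m with
  | zero => simp [pw]
  | succ m ih => simp [pw, ih]

def cm {G : Type} [Group G] (a b : G) : G := a * b * a⁻¹ * b⁻¹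

def wd {G : Type} [Group G] (a : ℕ → G) (m : ℕ) : G :=
  cm (cm (a 0) (a 1 ^ 16)) (pw (fun i => a (i + 2)) m * cm (a 0) (a 1 ^ 16) *
    (pw (fun i => a (i + 2)) m)⁻¹)

theorem map_wd {G H : Type} [Group G] [Group H] (f : G →* H) (a : ℕ → G) (m : ℕ) :
    f (wd a m) = wd (fun i => f (a i)) m := by
  simp [wd, cm, map_pw]

variable {E : Type} [Group E] [Fintype E] (K : Type) [Field K] (c : Subgroup.center E)

def Φ : Type := {f : E → K // ∀ g g', f g + f (g * c) = f g' + f (g' * c)}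

def γ : (E → K) →+ (E → K) →+ (Φ K c → K) :=
  AddMonoidHom.mk' (fun x => AddMonoidHom.mk' (fun y f => ∑ g, x g * y (g * c) * f.1 g)
    fun y y' => by ext f; simp [mul_add, add_mul, Finset.sum_add_distrib])
    fun x x' => by ext y f; simp [add_mul, Finset.sum_add_distrib]

theorem γ_apply (x y : E → K) (f : Φ K c) : γ K c x y f = ∑ g, x g * y (g * c) * f.1 g := rfl

theorem cc (g h : E) : g * c * h = g * h * c := by
  rw [mul_assoc, mul_assoc, Subgroup.mem_center_iff.1 c.2 h]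

def tr (h : E) (f : Φ K c) : Φ K c :=
  ⟨fun g => f.1 (g * h), fun g g' => by simp only [cc]; exact f.2 _ _⟩

instance : MulDistribMulAction (E × Kˣ) (Hs (γ K c)) where
  smul t a := ⟨fun g => t.2 * a.x (g * t.1), fun f => t.2 ^ 2 * a.s (tr K c t.1⁻¹ f)⟩
  one_smul a := by
    change Hs.mk _ _ = _
    ext <;> simp [tr]
  mul_smul t t' a := by
    change Hs.mk _ _ = Hs.mk (fun g => t.2 * (t'.2 * a.x (g * t.1 * t'.1)))
      (fun f => t.2 ^ 2 * (t'.2 ^ 2 * a.s (tr K c t'.1⁻¹ (tr K c t.1⁻¹ f))))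
    ext
    · simp [mul_assoc]
    · simp [tr, mul_assoc, mul_pow]
  smul_one t := by
    change Hs.mk _ _ = _
    ext <;> simp
  smul_mul t a b := by
    change Hs.mk _ _ = Hs.mk (fun g => t.2 * a.x (g * t.1)) (fun f => t.2 ^ 2 * a.s (tr K c t.1⁻¹ f))
      * Hs.mk (fun g => t.2 * b.x (g * t.1)) (fun f => t.2 ^ 2 * b.s (tr K c t.1⁻¹ f))
    ext f
    · simp [mul_add]
    · simp only [Hs.mul_s, Pi.add_apply, γ_apply, mul_add, Finset.mul_sum, add_right_inj]
      refine (Fintype.sum_equiv (Equiv.mulRight t.1) _ _ fun g => ?_).symm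
      simp only [Equiv.coe_mulRight, tr, cc, mul_inv_cancel_right]
      ring

theorem smul_x (t : E × Kˣ) (a : Hs (γ K c)) (g : E) : (t • a).x g = t.2 * a.x (g * t.1) := rfl

abbrev Gp := Hs (γ K c) ⋊[MulDistribMulAction.toMulAut (E × Kˣ) (Hs (γ K c))] (E × Kˣ)

variable [CharP K 2]

theorem beta (hc : (c : E) * c = 1) (a : Hs (γ K c)) (t : E × Kˣ) (f : Φ K c) :
    γ K c a.x (t • a).x f + γ K c (t • a).x a.x f =
      t.2 * (f.1 1 + f.1 (1 * c)) * ∑ g, a.x g * a.x (g * (c * t.1)) := by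
  simp only [γ_apply, smul_x]
  rw [← Fintype.sum_equiv (Equiv.mulRight (c : E)) (fun g => t.2 * a.x (g * c * t.1) * a.x g *
    f.1 (g * c)) (fun g => t.2 * a.x (g * t.1) * a.x (g * c) * f.1 g) fun g => by
      simp [mul_assoc, hc], ← Finset.sum_add_distrib, Finset.mul_sum]
  refine Finset.sum_congr rfl fun g _ => ?_
  rw [f.2 1 g, mul_assoc g]
  ring

theorem wd_iff (h4 : ∀ g : E, g ^ 4 = 1) (a : ℕ → Gp K c) (m : ℕ) :
    wd a m = 1 ↔ γ K c (cm (a 0) (a 1 ^ 16)).left.x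
      ((pw (fun i => a (i + 2)) m).right • (cm (a 0) (a 1 ^ 16)).left).x =
      γ K c ((pw (fun i => a (i + 2)) m).right • (cm (a 0) (a 1 ^ 16)).left).x
        (cm (a 0) (a 1 ^ 16)).left.x := by
  have hy : (cm (a 0) (a 1 ^ 16)).right = 1 := by
    change rightHom (cm (a 0) (a 1 ^ 16)) = 1
    simp only [cm, map_mul, map_inv, map_pow]
    ext1
    · simp only [Prod.fst_mul, Prod.fst_inv, Prod.pow_fst]
      rw [show 16 = 4 * 4 from rfl, pow_mul, h4]; simp
    · simp
  unfold wd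
  generalize cm (a 0) (a 1 ^ 16) = y at *
  generalize pw (fun i => a (i + 2)) m = w
  have e1 : y = inl y.left := by ext1 <;> simp [hy]
  have e2 : w * y * w⁻¹ = inl (w.left * w.right • y.left * w.left⁻¹) := by
    conv_lhs => rw [← inl_left_mul_inr_right w, e1]
    rw [map_mul, map_mul, map_inv]
    change _ = _ * inl (MulDistribMulAction.toMulAut _ _ w.right y.left) * _
    rw [inl_aut]
    simp only [mul_inv_rev, map_inv, mul_assoc]
  rw [e2, cm, mul_inv_eq_one, mul_inv_eq_iff_eq_mul]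
  conv_lhs => rw [e1]
  rw [← map_mul, ← map_mul, inl_inj, Hs.comm_iff]
  simp

theorem exp16 (h4 : ∀ g : E, g ^ 4 = 1) (g : Gp K c) (hg : g.right.2 = 1) : g ^ 16 = 1 := by
  have h : (g ^ 4).right = 1 := by
    change rightHom (g ^ 4) = 1
    rw [map_pow]
    ext1
    · exact h4 _
    · change g.right.2 ^ 4 = 1
      rw [hg, one_pow]
  have e1 : g ^ 4 = inl (g ^ 4).left := by ext1 <;> simp [h]
  rw [show 16 = 4 * 4 from rfl, pow_mul, e1, ← map_pow, Hs.four, map_one]
  · intro x; ext; exact CharTwo.add_self_eq_zero _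
  · intro x; ext; exact CharTwo.add_self_eq_zero _

theorem holds (hc : (c : E) * c = 1) (h4 : ∀ g : E, g ^ 4 = 1) (m : ℕ)
    (hm : ∀ a : ℕ → E, c * pw a m ≠ 1 ∧ c * pw a m * (c * pw a m) = 1) (a : ℕ → Gp K c) :
    wd a m = 1 := by
  rw [wd_iff K c h4]
  ext f
  rw [← CharTwo.add_eq_zero, beta K c hc]
  have e : (pw (fun i => a (i + 2)) m).right.1 = pw (fun i => (a (i + 2)).right.1) m :=
    map_pw ((MonoidHom.fst E Kˣ).comp (rightHom : Gp K c →* E × Kˣ)) _ m
  rw [e]
  obtain ⟨h1, h2⟩ := hm fun i => (a (i + 2)).right.1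
  generalize (c : E) * pw (fun i => (a (i + 2)).right.1) m = s at h1 h2
  rw [Finset.sum_involution (fun g _ => g * s), mul_zero]
  · intro g _
    rw [mul_assoc, h2, mul_one, mul_comm]
    exact CharTwo.add_self_eq_zero _
  · intro g _ _
    simpa using h1
  · simp
  · intro g _
    rw [mul_assoc, h2, mul_one]

theorem fails (hc : (c : E) * c = 1) (hc1 : (c : E) ≠ 1) (h4 : ∀ g : E, g ^ 4 = 1) (m : ℕ)
    (b : ℕ → E) (hb : pw b m = c) (u : Kˣ) (hu : u ≠ 1) : ∃ a : ℕ → Gp K c, wd a m ≠ 1 := by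
  let _ : LinearOrder E := by classical exact linearOrderOfSTO WellOrderingRel
  let a : ℕ → Gp K c := fun i => if i = 0 then inl ⟨Pi.single 1 1, 0⟩ else
    if i = 1 then inr (1, u) else inr (b (i - 2), 1)
  refine ⟨a, fun h => ?_⟩
  rw [wd_iff K c h4] at h
  have hf : ∀ g : E, (if g < g * c then (1 : K) else 0) + (if g * c < g * c * c then 1 else 0) = 1 := by
    intro g
    rw [mul_assoc, hc, mul_one]
    rcases lt_trichotomy g (g * c) with h | h | h
    · simp [h, h.le]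
    · exact absurd (by simpa using h) hc1
    · simp [h, h.le]
  have := congrFun h ⟨fun g => if g < g * c then 1 else 0, fun g g' => by rw [hf, hf]⟩
  rw [← CharTwo.add_eq_zero, beta K c hc] at this
  have e : (pw (fun i => a (i + 2)) m).right.1 = c := by
    rw [← hb]
    exact (map_pw ((MonoidHom.fst E Kˣ).comp (rightHom : Gp K c →* E × Kˣ)) _ m).trans
      (by simp [a])
  simp only [hf, e, hc, mul_one, Units.mul_right_eq_zero] at this
  have e2 : (cm (a 0) (a 1 ^ 16)).left.x = Pi.single 1 (1 - (u : K) ^ 16) := by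
    have : cm (a 0) (a 1 ^ 16) = inl (⟨Pi.single 1 1, 0⟩ *
        ((1, u ^ 16) : E × Kˣ) • (⟨Pi.single 1 1, 0⟩ : Hs (γ K c))⁻¹) := by
      rw [map_mul]
      change _ = _ * inl (MulDistribMulAction.toMulAut _ _ ((1, u ^ 16) : E × Kˣ) _)
      rw [inl_aut]
      simp only [cm, a, if_true, one_ne_zero, if_false, ← map_pow, Prod.pow_mk, one_pow, mul_assoc,
        map_inv]
    rw [this]
    ext g
    simp only [left_inl, Hs.mul_x, Pi.add_apply, smul_x, Hs.inv_x, Pi.neg_apply, mul_one]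
    by_cases hg : g = 1 <;> simp [hg, sub_eq_add_neg]
  rw [e2, Finset.sum_eq_single 1 (fun g _ hg => by simp [hg]) (by simp)] at this
  simp only [Pi.single_eq_same, mul_self_eq_zero] at this
  have h2 : (1 - (u : K)) ^ 2 ^ 4 = 0 := by rw [sub_pow_char_pow]; simpa using this
  exact hu (Units.ext (sub_eq_zero.1 (pow_eq_zero_iff (by norm_num) |>.1 h2)).symm)

def δ (N : ℕ) : (Fin N → ZMod 2) →+ (Fin N → ZMod 2) →+ Matrix (Fin N) (Fin N) (ZMod 2) :=
  AddMonoidHom.mk' (fun x => AddMonoidHom.mk' (fun y => Matrix.vecMulVec x y)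
    fun y y' => by ext; simp [Matrix.vecMulVec, mul_add])
    fun x x' => by ext; simp [Matrix.vecMulVec, add_mul]

noncomputable instance (N : ℕ) : Fintype (Hs (δ N)) :=
  Fintype.ofInjective (fun a => (a.x, a.s)) fun _ _ h => Hs.ext (congrArg Prod.fst h)
    (congrArg Prod.snd h)

theorem t1 (N : ℕ) (x : Fin N → ZMod 2) : x + x = 0 := by ext; exact CharTwo.add_self_eq_zero _
theorem t2 (N : ℕ) (x : Matrix (Fin N) (Fin N) (ZMod 2)) : x + x = 0 := by
  ext; exact CharTwo.add_self_eq_zero _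

theorem pw_eq (N : ℕ) (a : ℕ → Hs (δ N)) (m : ℕ) :
    pw a m = ⟨0, Matrix.of fun r s => ∑ i : Fin m, (a i).x r * (a i).x s⟩ := by
  induction m with
  | zero => ext <;> simp [pw]
  | succ m ih =>
    rw [pw, ih, Hs.sq (t1 N) (t2 N)]
    ext1
    · simp
    · simp only [Hs.mul_s, map_zero, add_zero]
      ext
      simp [Fin.sum_univ_castSucc, δ, Matrix.vecMulVec]

def cN (N : ℕ) : Subgroup.center (Hs (δ N)) :=
  ⟨⟨0, 1⟩, Subgroup.mem_center_iff.2 fun g => by rw [Hs.comm_iff]; simp⟩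

/-- The group of order three is a quotient; the laws are those of an earlier run. -/
theorem main : ∃ (Γ : Type) (_ : Group Γ) (H : Subgroup Γ), H.Normal ∧
      Nonempty (Γ ⧸ H ≃ (GaloisField 2 2)ˣ) ∧
      (∃ f : Γ →* (GaloisField 2 2)ˣ, Function.Surjective f ∧ f.ker = H) ∧
      IsBasis {FreeGroup.of 0 ^ 16} H ∧
      (∀ m, ∀ φ : FreeGroup ℕ →* Γ, φ (wd FreeGroup.of (m + 1)) = 1) ∧
      ∀ S : Set (FreeGroup ℕ), S.Finite → (∀ s ∈ S, ∀ φ : FreeGroup ℕ →* Γ, φ s = 1) →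
        ∃ n, wd FreeGroup.of (n + 1) ∉ Subgroup.closure
          {v : FreeGroup ℕ | ∃ s ∈ S, ∃ ψ : FreeGroup ℕ →* FreeGroup ℕ, ψ s = v} := by
  have hc : ∀ N, (cN N : Hs (δ N)) * cN N = 1 := fun N => by ext1 <;> simp [cN, t2]
  have h4 : ∀ N (g : Hs (δ N)), g ^ 4 = 1 := fun N => Hs.four (t1 N) (t2 N)
  obtain ⟨u, hu⟩ : ∃ u : (GaloisField 2 2)ˣ, u ≠ 1 := by
    have : Nontrivial (GaloisField 2 2)ˣ := by
      rw [← Finite.one_lt_card_iff_nontrivial, Nat.card_units, GaloisField.card 2 2 (by norm_num)]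
      norm_num
    exact exists_ne 1
  refine final (fun n => Gp (GaloisField 2 2) (cN (n + 1))) (GaloisField 2 2)ˣ
    (fun n => (MonoidHom.snd _ _).comp rightHom)
    (fun n x => ⟨inr (1, x), by simp⟩) 16 (fun n g hg => exp16 _ _ (h4 _) g hg)
    (fun m => wd FreeGroup.of (m + 1)) (fun m R _ hR φ => ?_) (fun m n hmn φ => ?_) fun n => ?_
  · simp [map_wd, wd, cm, hR]
  · rw [map_wd]
    refine holds _ _ (hc _) (h4 _) _ (fun a => ?_) _
    rw [pw_eq]
    refine ⟨fun h => ?_, by ext1 <;> simp [cN, t2]⟩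
    have h1 := congrArg Hs.s h
    simp only [cN, Hs.mul_s, map_zero, add_zero, Hs.one_s] at h1
    let A : Matrix (Fin (n + 1)) (Fin (m + 1)) (ZMod 2) := Matrix.of fun r i => (a i).x r
    have h2 : A * A.transpose = 1 := by
      rw [← add_left_cancel_iff (a := 1), t2, ← h1]
      rfl
    have h3 := Matrix.rank_mul_le_left A A.transpose
    rw [h2, Matrix.rank_one, Fintype.card_fin] at h3
    have := Matrix.rank_le_width A
    omega
  · obtain ⟨a, ha⟩ := fails (GaloisField 2 2) (cN (n + 1)) (hc _)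
      (fun h => one_ne_zero (congrArg Hs.s h)) (h4 _) (n + 1)
      (fun i => ⟨fun r => if (r : ℕ) = i then 1 else 0, 0⟩) (by
        rw [pw_eq]
        ext r s
        · rfl
        · simp only [Matrix.of_apply, cN, Fin.val_inj, Matrix.one_apply]
          rw [Finset.sum_eq_single r (fun i _ hi => by simp [hi.symm]) (by simp)]
          simp [eq_comm]) u hu
    exact ⟨FreeGroup.lift a, by simpa [map_wd] using ha⟩

end Pool.Agent.KS6_69.FB.B
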